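import Pool.Agent.Helper87.Irr.GoalsT

/-! MP_033e98_co, packet TStar: assembling stars. -/

set_option autoImplicit false

namespace Irr17

open Irr37 Irr87

theorem legsF_append (a b : List (ℕ × ℕ)) : legsF (a ++ b) = app (legsF a) (legsF b) := by
  induction a with
  | nil => rfl
  | cons e a ih => rw [List.cons_append, legsF_cons, legsF_cons, ih, app_assoc]

theorem runs_append {p : ℕ} {as bs : List (ℕ × ℕ)} {Dss : List (List ℕ)} {hs : List ℕ}
    (h : Runs p (as ++ bs) Dss hs) : ∃ D1 D2 h1 h2, Dss = D1 ++ D2 ∧ hs = h1 ++ h2 ∧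
      Runs p as D1 h1 ∧ Runs p bs D2 h2 := by
  induction as generalizing Dss hs with
  | nil => exact ⟨[], Dss, [], hs, rfl, rfl, trivial, h⟩
  | cons e as ih =>
    cases Dss with
    | nil => cases hs <;> simp [Runs] at h
    | cons Ds Dss =>
      cases hs with
      | nil => simp [Runs] at h
      | cons x hs =>
        obtain ⟨h1, h2, h3, h4⟩ := h
        obtain ⟨D1, D2, x1, x2, e1, e2, k1, k2⟩ := ih h4
        refine ⟨Ds :: D1, D2, x :: x1, x2, ?_, ?_, ⟨h1, h2, h3, k1⟩, k2⟩
        · rw [e1]; rfl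
        · rw [e2]; rfl

theorem runs_nil {p : ℕ} {Dss : List (List ℕ)} {hs : List ℕ} (h : Runs p [] Dss hs) :
    Dss = [] ∧ hs = [] := by
  cases Dss <;> cases hs <;> simp [Runs] at h ⊢

theorem runs_cons {p : ℕ} {e : ℕ × ℕ} {as : List (ℕ × ℕ)} {Dss : List (List ℕ)} {hs : List ℕ}
    (h : Runs p (e :: as) Dss hs) : ∃ Ds Dss' x hs', Dss = Ds :: Dss' ∧ hs = x :: hs' ∧
      Ds.length = e.1 ∧ ChS p e.2 Ds x ∧ x < p ∧ Runs p as Dss' hs' := by
  cases Dss with
  | nil => cases hs <;> simp [Runs] at h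
  | cons Ds Dss =>
    cases hs with
    | nil => simp [Runs] at h
    | cons x hs =>
      obtain ⟨h1, h2, h3, h4⟩ := h
      exact ⟨Ds, Dss, x, hs, rfl, rfl, h1, h2, h3, h4⟩

theorem chS_lt {p S : ℕ} {Ds : List ℕ} {h : ℕ} (hc : ChS p S Ds h) : ∀ D ∈ Ds, D < p := by
  obtain ⟨D, l, rfl, h1, h2, h3, h4⟩ := hc
  intro D' hD'
  rcases List.mem_cons.1 hD' with rfl | hD'
  · exact h3
  · exact h4.le _ hD'

theorem runs_lt {p : ℕ} {as : List (ℕ × ℕ)} {Dss : List (List ℕ)} {hs : List ℕ}
    (h : Runs p as Dss hs) : ∀ D ∈ Dss.flatten, D < p := by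
  induction as generalizing Dss hs with
  | nil =>
    obtain ⟨rfl, rfl⟩ := runs_nil h
    intro D hD
    simp at hD
  | cons e as ih =>
    obtain ⟨Ds, Dss', x, hs', rfl, rfl, h1, h2, h3, h4⟩ := runs_cons h
    intro D hD
    rw [List.flatten_cons, List.mem_append] at hD
    rcases hD with hD | hD
    · exact chS_lt h2 D hD
    · exact ih h4 D hD

theorem wts_nodup {p : ℕ} {F : List ℕ} (h : F.Nodup) (hlt : ∀ D ∈ F, D < p) :
    (wts p F).Nodup := by
  unfold wts
  rw [Multiset.coe_nodup]
  apply List.Nodup.map_on _ h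
  intro x hx y hy hxy
  have h1 := hlt x hx
  have h2 := hlt y hy
  omega

/-- included legs -/
theorem incl_PS {p : ℕ} {incl : List (ℕ × Multiset ℕ)} {Dss : List (List ℕ)}
    {hs : List ℕ} (h : Runs p (incl.map (fun e => (e.1 + 1, e.2.sum))) Dss hs) :
    ∃ x, PS p (legsF (incl.map (fun e => (e.1, Multiset.card e.2)))) x (wts p Dss.flatten)
      ((incl.map Prod.snd).sum) RF.nil ∧ x + hs.sum = p * incl.length := by
  induction incl generalizing Dss hs with
  | nil =>
    obtain ⟨rfl, rfl⟩ := runs_nil h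
    exact ⟨0, by simpa [wts] using PS.nil, by simp⟩
  | cons e incl ih =>
    obtain ⟨Ds, Dss', y, hs', rfl, rfl, h1, h2, h3, h4⟩ := runs_cons h
    obtain ⟨x, hx, hx'⟩ := ih h4
    have h5 := PS.inclLeg (X := e.2) h1 h2
    refine ⟨p - y + x, ?_, ?_⟩
    · have h6 := h5.app hx
      simp only [List.map_cons, legsF_cons, List.flatten_cons, wts_append, List.sum_cons]
      simpa using h6
    · simp only [List.sum_cons, List.length_cons]
      rw [Nat.mul_add, Nat.mul_one]
      omega

/-- the run above the vertex -/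
def topns (n₀ : ℕ) : List ℕ := if n₀ = 0 then [] else [n₀]

theorem topns_zero : topns 0 = [] := rfl

theorem topns_pos {n : ℕ} (h : n ≠ 0) : topns n = [n] := if_neg h

theorem opn_append (p : ℕ) (a b : List ℕ) : opn p (a ++ b) = opn p a ++ opn p b := by
  unfold opn
  rw [List.map_append]

theorem in_mono {p z : ℕ} {V V' : Finset ℕ} (h : In p V z) (hV : V ⊆ V') : In p V' z :=
  fun y hy => (h y hy).trans (Finset.card_le_card (Finset.filter_subset_filter _ hV))

theorem in_zero (p : ℕ) (V : Finset ℕ) : In p V 0 := fun y hy => by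
  have : y = 0 := by omega
  subst this
  exact Nat.zero_le _

/-- one excluded leg -/
theorem excl_step (hRE : RE) {p K r : ℕ} {V : Finset ℕ} {X : Multiset ℕ}
    (hr : 1 ≤ r) (hK : 2 * p ≤ X.sum + K) (hV : V.card + 1 + r + K ≤ p + 1) :
    ∃ W : Multiset ℕ, PS p (zrun r (bot (Multiset.card X))) p W X RF.nil ∧ W.Nodup ∧
      (∀ u ∈ W, p < u ∧ u ∉ V) ∧ Multiset.card W = r + 1 := by
  obtain ⟨Dss, hs, w, h1, h2, h3, h4, h5, h6⟩ := hRE p r K 0 X.sum V hr (in_zero p V) (by omega) hV
  obtain ⟨Ds, Dss', y, hs', rfl, rfl, k1, k2, k3, k4⟩ := runs_cons h1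
  obtain ⟨rfl, rfl⟩ := runs_nil k4
  simp only [List.flatten_cons, List.flatten_nil, List.append_nil] at h2 h3
  simp only [List.sum_cons, List.sum_nil, List.length_cons, List.length_nil] at h4
  have k1' : Ds.length = r := k1
  have k5 := PS.exclLeg (X := X) k3 k2
  have e1 : X.sum + (p - y) = w := by omega
  rw [k1', e1] at k5
  refine ⟨_, k5, ?_, ?_, ?_⟩
  · rw [Multiset.nodup_cons]
    refine ⟨?_, wts_nodup h2 (chS_lt k2)⟩
    intro hw
    obtain ⟨D, hD, hD2⟩ := mem_wts.1 hw
    exact (h3 D hD).2 hD2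
  · intro u hu
    rcases Multiset.mem_cons.1 hu with rfl | hu
    · exact ⟨h5, h6⟩
    · obtain ⟨D, hD, hD2⟩ := mem_wts.1 hu
      have := chS_lt k2 D hD
      refine ⟨by omega, ?_⟩
      rw [← hD2]
      exact (h3 D hD).1
  · rw [Multiset.card_cons, card_wts, k1']

/-- **Assembly.** -/
theorem asm {p z n₀ l : ℕ} {top : Bool} {V V' : Finset ℕ} {res fill : Multiset ℕ} {g : RF}
    (hz : z < p) (hadm : z = 0 ∨ (top = true ∧ n₀ = 0)) (htop : top = false → n₀ = 0)
    {ex incl' os : List (ℕ × ℕ)} {Wex Lex : Multiset ℕ}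
    (hex : PS p (legsF ex) (p * ex.length) Wex Lex RF.nil)
    (hWn : Wex.Nodup) (hWV : ∀ u ∈ Wex, p < u ∧ u ∉ V) (hV' : V' = V ∪ Wex.toFinset)
    (incl : List (ℕ × Multiset ℕ))
    (hincl : incl.map (fun e => (e.1, Multiset.card e.2)) = incl')
    {A : Multiset ℕ} (hA : Multiset.card A = l)
    (hlab : A + (Lex + (incl.map Prod.snd).sum) = res + fill)
    (hst : Star p V' (A.sum + p * ex.length + p * g.width +
        (if top = true ∧ n₀ = 0 then p - z else 0))
      (incl.map (fun e => (e.1 + 1, e.2.sum)) ++ opn p (os.map Prod.fst ++ topns n₀))) :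
    ∃ (A : Multiset ℕ) (x : ℕ) (W L : Multiset ℕ) (Ds : List ℕ) (h w : ℕ),
      Multiset.card A = l ∧
      PS p (app (legsF (ex ++ (incl' ++ os))) g) x W L (app (botsF os) g) ∧
      A + L = res + fill ∧ Ds.length = n₀ ∧
      Chain p z Ds h ∧ h < p ∧ w = A.sum + x + (if top then p - h else 0) ∧
      (w ::ₘ (W + wts p Ds)).Nodup ∧ ∀ u ∈ w ::ₘ (W + wts p Ds), p < u ∧ u ∉ V := by
  subst hincl hV'
  obtain ⟨Dss, hs, w, hr, hn, hD, hw, hpw, hwV⟩ := hst
  have hlt := runs_lt hr
  obtain ⟨D1, D23, h1, h23, rfl, rfl, r1, r23⟩ := runs_append hr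
  rw [opn_append] at r23
  obtain ⟨D2, D3, h2, h3, rfl, rfl, r2, r3⟩ := runs_append r23
  obtain ⟨x1, p1, e1⟩ := incl_PS r1
  obtain ⟨x2, p2, e2⟩ := PS.legsF (by omega) r2
  have p3 := hex.app (p1.app (p2.app (PS.cutAll p g)))
  have hF : app (legsF ex) (app (legsF (incl.map (fun e => (e.1, Multiset.card e.2))))
      (app (legsF os) g)) =
      app (legsF (ex ++ (incl.map (fun e => (e.1, Multiset.card e.2)) ++ os))) g := by
    rw [legsF_append, legsF_append, app_assoc, app_assoc]
  rw [hF] at p3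
  simp only [nil_app, add_zero] at p3
  -- the common part of the nodup statement
  have key : ∀ F : List ℕ, (F.Perm (D1 ++ (D2 ++ D3)).flatten) →
      (w ::ₘ (Wex + wts p F)).Nodup ∧ ∀ u ∈ w ::ₘ (Wex + wts p F), p < u ∧ u ∉ V := by
    intro F hF
    have hFn : F.Nodup := hF.nodup_iff.2 hn
    have hFl : ∀ D ∈ F, D < p := fun D h => hlt D (hF.mem_iff.1 h)
    have hFV : ∀ D ∈ F, 2 * p - D ∉ V ∪ Wex.toFinset ∧ 2 * p - D ≠ w :=
      fun D h => hD D (hF.mem_iff.1 h)
    constructor
    · rw [Multiset.nodup_cons]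
      constructor
      · intro hm
        rcases Multiset.mem_add.1 hm with hm | hm
        · apply hwV
          rw [Finset.mem_union, Multiset.mem_toFinset]
          exact Or.inr hm
        · obtain ⟨D, h4, h5⟩ := mem_wts.1 hm
          exact (hFV D h4).2 h5
      · rw [Multiset.nodup_add]
        refine ⟨hWn, wts_nodup hFn hFl, ?_⟩
        rw [Multiset.disjoint_left]
        intro u hu hu2
        obtain ⟨D, h4, h5⟩ := mem_wts.1 hu2
        apply (hFV D h4).1
        rw [h5, Finset.mem_union, Multiset.mem_toFinset]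
        exact Or.inr hu
    · intro u hu
      rcases Multiset.mem_cons.1 hu with rfl | hu
      · exact ⟨hpw, fun h => hwV (Finset.mem_union_left _ h)⟩
      · rcases Multiset.mem_add.1 hu with hu | hu
        · exact hWV u hu
        · obtain ⟨D, h4, h5⟩ := mem_wts.1 hu
          have h6 := hFl D h4
          rw [← h5]
          exact ⟨by omega, fun h => (hFV D h4).1 (Finset.mem_union_left _ h)⟩
  rw [List.sum_append, List.sum_append] at hw
  rw [List.length_append, List.length_map] at hw
  have hol : (opn p (os.map Prod.fst ++ topns n₀)).length = os.length + (topns n₀).length := by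
    simp [opn]
  rw [hol] at hw
  by_cases h0 : n₀ = 0
  · subst h0
    rw [topns_zero] at r3 hw
    obtain ⟨rfl, rfl⟩ := runs_nil r3
    refine ⟨A, _, _, _, [], z, w, hA, p3, hlab, rfl, rfl, hz, ?_, ?_⟩
    · simp only [List.sum_nil, List.length_nil, Nat.add_zero, Nat.mul_add] at hw
      cases top
      · simp only [Bool.false_eq_true, false_and, if_false] at hw ⊢
        omega
      · simp only [true_and, if_true] at hw ⊢
        omega
    · have k := key (D1 ++ (D2 ++ [])).flatten (List.Perm.refl _)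
      have e : Wex + wts p (D1 ++ (D2 ++ [])).flatten =
          Wex + (wts p D1.flatten + wts p D2.flatten) + wts p [] := by
        rw [List.append_nil, List.flatten_append, wts_append, wts_nil, add_zero]
      rw [e] at k
      exact k
  · have ht : top = true := by
      by_contra h
      exact h0 (htop (by simpa using h))
    have hz0 : z = 0 := by
      rcases hadm with h | h
      · exact h
      · exact absurd h.2 h0
    subst ht hz0
    rw [topns_pos h0] at r3 hw
    obtain ⟨Ds, Dss', y, hs', rfl, rfl, k1, k2, k3, k4⟩ := runs_cons r3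
    obtain ⟨rfl, rfl⟩ := runs_nil k4
    refine ⟨A, _, _, _, Ds, y, w, hA, p3, hlab, k1, ChS_self k2, k3, ?_, ?_⟩
    · simp only [List.sum_cons, List.sum_nil, List.length_cons, List.length_nil, Nat.add_zero,
        Nat.mul_add, Nat.mul_one, h0, and_false, if_false, zero_add] at hw
      simp only [if_true]
      omega
    · have k := key (D1 ++ (D2 ++ [Ds])).flatten (List.Perm.refl _)
      have e : Wex + wts p (D1 ++ (D2 ++ [Ds])).flatten =
          Wex + (wts p D1.flatten + wts p D2.flatten) + wts p Ds := by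
        rw [List.flatten_append, List.flatten_append, wts_append, wts_append, List.flatten_cons,
          List.flatten_nil, List.append_nil]
        abel
      rw [e] at k
      exact k

end Irr17
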