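import Pool.Agent.Helper17.Irr.StarAsm

/-! MP_033e98_co, packet TStar. -/

set_option autoImplicit false

namespace Irr17

open Irr37 Irr87

theorem topns_sum (n : ℕ) : (topns n).sum = n := by
  unfold topns
  split_ifs with h
  · simp [h]
  · simp

theorem topns_len (n : ℕ) : (topns n).length ≤ 1 := by
  unfold topns
  split_ifs <;> simp

theorem topns_mem {n m : ℕ} (h : m ∈ topns n) : 1 ≤ m := by
  unfold topns at h
  split_ifs at h with h0
  · simp at h
  · rw [List.mem_singleton] at h
    omega

theorem oddc_nil : oddc [] = 0 := rfl

theorem oddc_append (a b : List ℕ) : oddc (a ++ b) = oddc a + oddc b := by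
  simp [oddc, List.filter_append]

theorem oddc_cons_odd {n : ℕ} (h : n % 2 = 1) (ns : List ℕ) : oddc (n :: ns) = oddc ns + 1 := by
  simp [oddc, h]

theorem oddc_cons_even {n : ℕ} (h : n % 2 ≠ 1) (ns : List ℕ) : oddc (n :: ns) = oddc ns := by
  simp [oddc, h]

theorem oddc_le (ns : List ℕ) : oddc ns ≤ ns.length := List.length_filter_le _ _

theorem oddc_le_sum (ns : List ℕ) : oddc ns ≤ ns.sum := by
  induction ns with
  | nil => simp [oddc]
  | cons n ns ih =>
    rw [List.sum_cons]
    by_cases h : n % 2 = 1
    · rw [oddc_cons_odd h]; omega
    · rw [oddc_cons_even h]; omega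

theorem oddc_all {ns : List ℕ} (h : ns.length ≤ oddc ns) : ∀ n ∈ ns, n % 2 = 1 := by
  induction ns with
  | nil => intro n hn; simp at hn
  | cons n ns ih =>
    have h1 := oddc_le ns
    rw [List.length_cons] at h
    by_cases h2 : n % 2 = 1
    · rw [oddc_cons_odd h2] at h
      intro m hm
      rcases List.mem_cons.1 hm with rfl | hm
      · exact h2
      · exact ih (by omega) m hm
    · rw [oddc_cons_even h2] at h
      omega

theorem oddc_ex {ns : List ℕ} (h : 1 ≤ oddc ns) : ∃ n ∈ ns, n % 2 = 1 := by
  induction ns with
  | nil => simp [oddc] at h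
  | cons n ns ih =>
    by_cases h2 : n % 2 = 1
    · exact ⟨n, List.mem_cons_self, h2⟩
    · rw [oddc_cons_even h2] at h
      obtain ⟨m, hm, h3⟩ := ih h
      exact ⟨m, List.mem_cons_of_mem _ hm, h3⟩

theorem oddc_perm {a b : List ℕ} (h : a.Perm b) : oddc a = oddc b := by
  unfold oddc
  exact (h.filter _).length_eq

theorem cc_ge {p z n₀ : ℕ} {top : Bool} (hz : AdmZ p z top n₀) (htop : top = false → n₀ = 0) :
    p * (if top then 1 else 0) ≤ (if top = true ∧ n₀ = 0 then p - z else 0) + z +
      p * (topns n₀).length := by
  obtain ⟨h1, h2⟩ := hz
  by_cases h0 : n₀ = 0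
  · cases top
    · simp
    · simp only [h0, if_true, and_self, topns_zero, List.length_nil]
      omega
  · have ht : top = true := by
      by_contra h
      exact h0 (htop (by simpa using h))
    subst ht
    rw [topns_pos h0]
    simp [h0]

theorem num {p z E a e w o c t u : ℕ} (hE : E ≤ e + w + o + u) (hc : p * u ≤ c + z + p * t) :
    E * p ≤ (a + p * e + p * w + c) + z + p * (o + t) := by
  have h := Nat.mul_le_mul_right p hE
  have e1 : (e + w + o + u) * p = p * e + p * w + p * o + p * u := by ring
  rw [e1] at h
  rw [Nat.mul_add]
  omega

theorem split_ms {s : Multiset ℕ} {k : ℕ} (h : k ≤ Multiset.card s) :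
    ∃ a b, s = a + b ∧ Multiset.card a = k := by
  induction s using Quotient.inductionOn with
  | _ l =>
    refine ⟨(l.take k : Multiset ℕ), (l.drop k : Multiset ℕ), ?_, ?_⟩
    · rw [Multiset.coe_add, List.take_append_drop]
      rfl
    · have h' : k ≤ l.length := h
      simp [h']

theorem card_union_le' {V : Finset ℕ} {W : Multiset ℕ} {k : ℕ} (h : Multiset.card W = k) :
    (V ∪ W.toFinset).card ≤ V.card + k := by
  have h1 := Finset.card_union_le V W.toFinset
  have h2 := Multiset.toFinset_card_le W
  omega

section

variable {p s : ℕ} {R : Finset ℕ} {top : Bool} {n₀ l : ℕ} {g : RF}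

theorem starRes_perm {ls ls2 : List (ℕ × ℕ)} (h : ls.Perm ls2)
    (hr : StarRes p s R top n₀ l ls g) : StarRes p s R top n₀ l ls2 g := by
  obtain ⟨ls', ls'', res, a1, a2, a3, a4, a5, a6, a7⟩ := hr
  have e1 : (ls.map Prod.fst).sum = (ls2.map Prod.fst).sum := (h.map _).sum_eq
  have e2 : ls.length = ls2.length := h.length_eq
  have e3 : (ls.map Prod.snd).sum = (ls2.map Prod.snd).sum := (h.map _).sum_eq
  rw [e1, e2] at a4 a6
  rw [e3] at a5
  exact ⟨ls', ls'', res, a1.trans h, a2, a3, a4, a5, a6, a7⟩

theorem starSit_perm {ls ls2 : List (ℕ × ℕ)} (h : ls.Perm ls2)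
    (hs : StarSit p s R top n₀ l ls g) : StarSit p s R top n₀ l ls2 g := by
  have e1 : (ls.map Prod.fst).sum = (ls2.map Prod.fst).sum := (h.map _).sum_eq
  have e2 : ls.length = ls2.length := h.length_eq
  have e3 : (ls.map Prod.snd).sum = (ls2.map Prod.snd).sum := (h.map _).sum_eq
  refine ⟨hs.topz, fun e he => hs.pos e (h.mem_iff.2 he), ?_, ?_, ?_, ?_⟩
  · rcases hs.ne with h1 | h1
    · left
      rintro rfl
      exact h1 (List.length_eq_zero_iff.1 e2)
    · exact Or.inr h1
  · rw [← e2]; exact hs.deg
  · rw [← e3]; exact hs.leaves
  · rw [← e1, ← e2]; exact hs.size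

/-- all legs open -/
theorem case0 (h0 : Star0) {ls : List (ℕ × ℕ)} (hs : StarSit p s R top n₀ l ls g)
    (hO : oddc (ls.map Prod.fst ++ topns n₀) + 2 ≤
      ls.length + g.width + (if top then 1 else 0)) :
    StarRes p s R top n₀ l ls g := by
  refine ⟨ls, ls, ∅, List.Perm.refl _, List.Sublist.refl _, Finset.empty_subset _, ?_, ?_, ?_, ?_⟩
  · rw [Finset.card_empty]; omega
  · rw [Finset.card_empty]; omega
  · intro _
    rw [Finset.card_empty]; omega
  · intro z hz V fill hIn hcard hlab hfill hnd
    simp only [app_size, legsF_size, botsF_size] at hcard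
    simp only [app_leaves, legsF_leaves, botsF_leaves, Finset.empty_val, Multiset.card_zero]
      at hlab
    have hc := cc_ge hz hs.topz
    have hdeg := hs.deg
    have hst : Star p V (fill.sum + p * ([] : List (ℕ × ℕ)).length + p * g.width +
        (if top = true ∧ n₀ = 0 then p - z else 0))
        (([] : List (ℕ × Multiset ℕ)).map (fun e => (e.1 + 1, e.2.sum)) ++
          opn p (ls.map Prod.fst ++ topns n₀)) := by
      rw [List.map_nil, List.nil_append]
      apply h0 p z _ V
      · intro h
        rw [List.append_eq_nil_iff, List.map_eq_nil_iff] at h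
        rcases hs.ne with h1 | h1
        · exact h1 h.1
        · have := topns_sum n₀
          rw [h.2, List.sum_nil] at this
          omega
      · intro n hn
        rcases List.mem_append.1 hn with hn | hn
        · obtain ⟨e, he, rfl⟩ := List.mem_map.1 hn
          exact (hs.pos e he).1
        · exact topns_mem hn
      · exact hIn
      · rw [List.length_append, List.length_map]
        refine num (u := if top then 1 else 0) ?_ hc
        rw [List.length_nil]
        omega
      · rw [List.sum_append, topns_sum]
        omega
    exact asm hz.1 hz.2 hs.topz (ex := []) (incl' := []) (os := ls) (Wex := 0) (Lex := 0)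
      (by simpa using PS.nil) (by simp) (by simp) (by simp) [] rfl (by omega) (by simp) hst

/-- one included leg -/
theorem caseA (h1 : Star1) {r b : ℕ} {os : List (ℕ × ℕ)}
    (hs : StarSit p s R top n₀ l ((r, b) :: os) g) (hr : r % 2 = 1)
    (hO : oddc (os.map Prod.fst ++ topns n₀) + 2 = os.length + 1 + g.width +
      (if top then 1 else 0)) {X : Finset ℕ} (hXR : X ⊆ R) (hXc : X.card = b) (hb : b ≤ 2)
    (hX1 : p ≤ X.val.sum + s) (hX2 : X.val.sum ≤ p + s) :
    StarRes p s R top n₀ l ((r, b) :: os) g := by
  have hdeg := hs.deg
  have hpos := hs.pos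
  have hr1 := (hpos (r, b) List.mem_cons_self).1
  have hb1 := (hpos (r, b) List.mem_cons_self).2
  simp only at hr1 hb1
  rw [List.length_cons] at hdeg
  have hos := oddc_le_sum (os.map Prod.fst ++ topns n₀)
  rw [List.sum_append, topns_sum] at hos
  refine ⟨(r, b) :: os, os, X, List.Perm.refl _, List.sublist_cons_self _ _, hXR, ?_, ?_, ?_, ?_⟩
  · simp only [List.map_cons, List.sum_cons, List.length_cons]
    omega
  · simp only [List.map_cons, List.sum_cons]
    omega
  · intro _
    simp only [List.map_cons, List.sum_cons, List.length_cons]
    omega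
  · intro z hz V fill hIn hcard hlab hfill hnd
    simp only [app_size, legsF_size, botsF_size, List.map_cons, List.sum_cons, List.length_cons]
      at hcard
    simp only [app_leaves, legsF_leaves, botsF_leaves, List.map_cons, List.sum_cons,
      Finset.card_val] at hlab
    have hc := cc_ge hz hs.topz
    have hst : Star p V (fill.sum + p * ([] : List (ℕ × ℕ)).length + p * g.width +
        (if top = true ∧ n₀ = 0 then p - z else 0))
        ([(r, X.val)].map (fun e => (e.1 + 1, e.2.sum)) ++
          opn p (os.map Prod.fst ++ topns n₀)) := by
      apply h1 p s z 0 _ V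
      · intro n hn
        rcases List.mem_append.1 hn with hn | hn
        · obtain ⟨e, he, rfl⟩ := List.mem_map.1 hn
          exact (hpos e (List.mem_cons_of_mem _ he)).1
        · exact topns_mem hn
      · exact Nat.even_iff.2 (by show (r + 1) % 2 = 0; omega)
      · show 1 ≤ r + 1
        omega
      · exact hX1
      · exact hX2
      · omega
      · exact hIn
      · rw [List.length_append, List.length_map]
        have k := num (p := p) (z := z) (E := 3 + (oddc (os.map Prod.fst ++ topns n₀) - 1))
          (a := fill.sum) (e := ([] : List (ℕ × ℕ)).length) (w := g.width) (o := os.length + 1)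
          (c := if top = true ∧ n₀ = 0 then p - z else 0)
          (t := (topns n₀).length) (u := if top then 1 else 0) (by
            rw [List.length_nil]
            omega) hc
        rw [Nat.add_mul] at k
        have e1 : os.length + (topns n₀).length + 1 = os.length + 1 + (topns n₀).length := by omega
        rw [e1]
        omega
      · rw [List.sum_append, topns_sum]
        show V.card + 1 + ((os.map Prod.fst).sum + n₀) + (r + 1) + s ≤ p + 1
        omega
    exact asm hz.1 hz.2 hs.topz (ex := []) (incl' := [(r, b)]) (os := os) (Wex := 0) (Lex := 0)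
      (by simpa using PS.nil) (by simp) (by simp) (by simp) [(r, X.val)]
      (by simp [hXc]) (by omega) (by simp [add_comm]) hst

/-- one excluded leg -/
theorem caseB (h0 : Star0) (hRE : RE) {r b : ℕ} {os : List (ℕ × ℕ)}
    (hs : StarSit p s R top n₀ l ((r, b) :: os) g)
    (hO : oddc (os.map Prod.fst ++ topns n₀) + 2 = os.length + 1 + g.width +
      (if top then 1 else 0)) {X : Finset ℕ} (hXR : X ⊆ R) (hXc : X.card = 3) (hb : 3 ≤ b)
    (hX1 : 2 * p ≤ X.val.sum + s) :
    StarRes p s R top n₀ l ((r, b) :: os) g := by
  have hdeg := hs.deg
  have hpos := hs.pos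
  have hr1 := (hpos (r, b) List.mem_cons_self).1
  simp only at hr1
  rw [List.length_cons] at hdeg
  have hos := oddc_le_sum (os.map Prod.fst ++ topns n₀)
  rw [List.sum_append, topns_sum] at hos
  refine ⟨(r, b) :: os, os, X, List.Perm.refl _, List.sublist_cons_self _ _, hXR, ?_, ?_, ?_, ?_⟩
  · simp only [List.map_cons, List.sum_cons, List.length_cons]
    omega
  · simp only [List.map_cons, List.sum_cons]
    omega
  · intro _
    simp only [List.map_cons, List.sum_cons, List.length_cons]
    omega
  · intro z hz V fill hIn hcard hlab hfill hnd
    simp only [app_size, legsF_size, botsF_size, List.map_cons, List.sum_cons, List.length_cons]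
      at hcard
    simp only [app_leaves, legsF_leaves, botsF_leaves, List.map_cons, List.sum_cons,
      Finset.card_val] at hlab
    have hc := cc_ge hz hs.topz
    obtain ⟨B, A, hBA, hB⟩ := split_ms (s := fill) (k := b - 3) (by omega)
    have hBc : Multiset.card (X.val + B) = b := by
      rw [Multiset.card_add, Finset.card_val]
      omega
    have hA : Multiset.card A = l := by
      have := congrArg Multiset.card hBA
      rw [Multiset.card_add] at this
      omega
    obtain ⟨W, w1, w2, w3, w4⟩ := excl_step hRE (p := p) (K := s) (r := r) (V := V)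
      (X := X.val + B) hr1 (by rw [Multiset.sum_add]; omega) (by omega)
    rw [hBc] at w1
    have hcV := card_union_le' (V := V) w4
    have hst : Star p (V ∪ W.toFinset) (A.sum + p * [(r, b)].length + p * g.width +
        (if top = true ∧ n₀ = 0 then p - z else 0))
        (([] : List (ℕ × Multiset ℕ)).map (fun e => (e.1 + 1, e.2.sum)) ++
          opn p (os.map Prod.fst ++ topns n₀)) := by
      rw [List.map_nil, List.nil_append]
      apply h0 p z _ _
      · intro h
        rw [h, oddc_nil] at hO
        omega
      · intro n hn
        rcases List.mem_append.1 hn with hn | hn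
        · obtain ⟨e, he, rfl⟩ := List.mem_map.1 hn
          exact (hpos e (List.mem_cons_of_mem _ he)).1
        · exact topns_mem hn
      · exact in_mono hIn Finset.subset_union_left
      · rw [List.length_append, List.length_map]
        refine num (u := if top then 1 else 0) ?_ hc
        simp only [List.length_cons, List.length_nil]
        omega
      · rw [List.sum_append, topns_sum]
        omega
    exact asm hz.1 hz.2 hs.topz (ex := [(r, b)]) (incl' := []) (os := os) (Wex := W)
      (Lex := X.val + B)
      (by simpa [legsF_cons] using w1) w2 w3 rfl [] rfl hA (by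
        rw [hBA]
        simp only [List.map_nil, List.sum_nil, add_zero]
        abel) hst

/-- two included legs (thin bottoms) -/
theorem caseC (h2 : Star2) {r b r' b' : ℕ} {os : List (ℕ × ℕ)}
    (hs : StarSit p s R top n₀ l ((r, b) :: (r', b') :: os) g) (hr : r % 2 = 1) (hr' : r' % 2 = 1)
    (hO : oddc (os.map Prod.fst ++ topns n₀) = os.length + g.width + (if top then 1 else 0))
    {X X' : Finset ℕ} (hXR : X ⊆ R) (hXR' : X' ⊆ R) (hd : Disjoint X X') (hXc : X.card = b)
    (hXc' : X'.card = b') (hb : b ≤ 2) (hb' : b' ≤ 2)
    (hX1 : p ≤ X.val.sum + s) (hX2 : X.val.sum ≤ p)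
    (hX1' : p ≤ X'.val.sum + s + 1) (hX2' : X'.val.sum ≤ p) :
    StarRes p s R top n₀ l ((r, b) :: (r', b') :: os) g := by
  have hdeg := hs.deg
  have hpos := hs.pos
  have hr1 := (hpos (r, b) List.mem_cons_self).1
  have hr1' := (hpos (r', b') (List.mem_cons_of_mem _ List.mem_cons_self)).1
  simp only at hr1 hr1'
  rw [List.length_cons, List.length_cons] at hdeg
  have hos := oddc_le_sum (os.map Prod.fst ++ topns n₀)
  rw [List.sum_append, topns_sum] at hos
  have hol := oddc_le (os.map Prod.fst ++ topns n₀)
  rw [List.length_append, List.length_map] at hol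
  have htl := topns_len n₀
  refine ⟨(r, b) :: (r', b') :: os, os, X.disjUnion X' hd, List.Perm.refl _,
    (List.sublist_cons_self _ _).trans (List.sublist_cons_self _ _), ?_, ?_, ?_, ?_, ?_⟩
  · intro a ha
    rcases Finset.mem_disjUnion.1 ha with ha | ha
    · exact hXR ha
    · exact hXR' ha
  · rw [Finset.card_disjUnion]
    simp only [List.map_cons, List.sum_cons, List.length_cons]
    omega
  · rw [Finset.card_disjUnion]
    simp only [List.map_cons, List.sum_cons]
    omega
  · intro _
    rw [Finset.card_disjUnion]
    simp only [List.map_cons, List.sum_cons, List.length_cons]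
    omega
  · intro z hz V fill hIn hcard hlab hfill hnd
    simp only [app_size, legsF_size, botsF_size, List.map_cons, List.sum_cons, List.length_cons]
      at hcard
    simp only [app_leaves, legsF_leaves, botsF_leaves, List.map_cons, List.sum_cons,
      Finset.card_val, Finset.card_disjUnion] at hlab
    have hc := cc_ge hz hs.topz
    have hz0 : z = 0 := by
      rcases hz.2 with h | ⟨h, h'⟩
      · exact h
      · subst h h'
        simp only [topns_zero, List.length_nil, if_true] at hol hO
        omega
    have hst : Star p V (fill.sum + p * ([] : List (ℕ × ℕ)).length + p * g.width +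
        (if top = true ∧ n₀ = 0 then p - z else 0))
        ([(r, X.val), (r', X'.val)].map (fun e => (e.1 + 1, e.2.sum)) ++
          opn p (os.map Prod.fst ++ topns n₀)) := by
      apply h2 p s _ V
      · intro n hn
        rcases List.mem_append.1 hn with hn | hn
        · obtain ⟨e, he, rfl⟩ := List.mem_map.1 hn
          exact (hpos e (List.mem_cons_of_mem _ (List.mem_cons_of_mem _ he))).1
        · exact topns_mem hn
      · omega
      · exact Nat.even_iff.2 (by show (r + 1) % 2 = 0; omega)
      · show 1 ≤ r + 1
        omega
      · exact Nat.even_iff.2 (by show (r' + 1) % 2 = 0; omega)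
      · show 1 ≤ r' + 1
        omega
      · exact hX2
      · exact hX1
      · exact hX2'
      · exact hX1'
      · rw [List.length_append, List.length_map]
        have k := num (p := p) (z := z) (E := 3 + (oddc (os.map Prod.fst ++ topns n₀) - 1))
          (a := fill.sum) (e := ([] : List (ℕ × ℕ)).length) (w := g.width) (o := os.length + 2)
          (c := if top = true ∧ n₀ = 0 then p - z else 0)
          (t := (topns n₀).length) (u := if top then 1 else 0) (by
            rw [List.length_nil]
            omega) hc
        rw [Nat.add_mul] at k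
        have e1 : os.length + (topns n₀).length + 2 = os.length + 2 + (topns n₀).length := by omega
        rw [e1]
        omega
      · rw [List.sum_append, topns_sum]
        show V.card + 1 + ((os.map Prod.fst).sum + n₀) + (r + 1) + (r' + 1) + s ≤ p + 1
        omega
    exact asm hz.1 hz.2 hs.topz (ex := []) (incl' := [(r, b), (r', b')]) (os := os) (Wex := 0)
      (Lex := 0) (by simpa using PS.nil) (by simp) (by simp) (by simp) [(r, X.val), (r', X'.val)]
      (by simp [hXc, hXc']) (by omega) (by
        simp only [Finset.disjUnion, List.map_cons, List.map_nil, List.sum_cons, List.sum_nil,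
          add_zero, zero_add]
        abel) hst

/-- two included legs, the second one with a bottom of sum `p` -/
theorem caseD (h1 : Star1) {r b r' b' : ℕ} {os : List (ℕ × ℕ)}
    (hs : StarSit p s R top n₀ l ((r, b) :: (r', b') :: os) g) (hr : r % 2 = 1) (hr' : r' % 2 = 1)
    (hO : oddc (os.map Prod.fst ++ topns n₀) = os.length + g.width + (if top then 1 else 0))
    {X X' : Finset ℕ} (hXR : X ⊆ R) (hXR' : X' ⊆ R) (hd : Disjoint X X') (hXc : X.card = b)
    (hXc' : X'.card = b') (hb : b ≤ 2) (hb' : b' ≤ 2)
    (hX1 : p ≤ X.val.sum + s) (hX2 : X.val.sum ≤ p + s) (hX' : X'.val.sum = p) :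
    StarRes p s R top n₀ l ((r, b) :: (r', b') :: os) g := by
  have hdeg := hs.deg
  have hpos := hs.pos
  have hr1 := (hpos (r, b) List.mem_cons_self).1
  have hr1' := (hpos (r', b') (List.mem_cons_of_mem _ List.mem_cons_self)).1
  simp only at hr1 hr1'
  rw [List.length_cons, List.length_cons] at hdeg
  have hos := oddc_le_sum (os.map Prod.fst ++ topns n₀)
  rw [List.sum_append, topns_sum] at hos
  refine ⟨(r, b) :: (r', b') :: os, os, X.disjUnion X' hd, List.Perm.refl _,
    (List.sublist_cons_self _ _).trans (List.sublist_cons_self _ _), ?_, ?_, ?_, ?_, ?_⟩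
  · intro a ha
    rcases Finset.mem_disjUnion.1 ha with ha | ha
    · exact hXR ha
    · exact hXR' ha
  · rw [Finset.card_disjUnion]
    simp only [List.map_cons, List.sum_cons, List.length_cons]
    omega
  · rw [Finset.card_disjUnion]
    simp only [List.map_cons, List.sum_cons]
    omega
  · intro _
    rw [Finset.card_disjUnion]
    simp only [List.map_cons, List.sum_cons, List.length_cons]
    omega
  · intro z hz V fill hIn hcard hlab hfill hnd
    simp only [app_size, legsF_size, botsF_size, List.map_cons, List.sum_cons, List.length_cons]
      at hcard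
    simp only [app_leaves, legsF_leaves, botsF_leaves, List.map_cons, List.sum_cons,
      Finset.card_val, Finset.card_disjUnion] at hlab
    have hc := cc_ge hz hs.topz
    have hod : oddc ((r' + 1) :: (os.map Prod.fst ++ topns n₀)) =
        oddc (os.map Prod.fst ++ topns n₀) := oddc_cons_even (by omega) _
    have hst : Star p V (fill.sum + p * ([] : List (ℕ × ℕ)).length + p * g.width +
        (if top = true ∧ n₀ = 0 then p - z else 0))
        ([(r, X.val), (r', X'.val)].map (fun e => (e.1 + 1, e.2.sum)) ++
          opn p (os.map Prod.fst ++ topns n₀)) := by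
      have e0 : [(r, X.val), (r', X'.val)].map (fun e => (e.1 + 1, e.2.sum)) ++
          opn p (os.map Prod.fst ++ topns n₀) =
          (r + 1, X.val.sum) :: opn p ((r' + 1) :: (os.map Prod.fst ++ topns n₀)) := by
        simp only [List.map_cons, List.map_nil, List.cons_append, List.nil_append, opn, hX']
      rw [e0]
      apply h1 p s z 0 _ V
      · intro n hn
        rcases List.mem_cons.1 hn with rfl | hn
        · omega
        · rcases List.mem_append.1 hn with hn | hn
          · obtain ⟨e, he, rfl⟩ := List.mem_map.1 hn
            exact (hpos e (List.mem_cons_of_mem _ (List.mem_cons_of_mem _ he))).1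
          · exact topns_mem hn
      · exact Nat.even_iff.2 (by omega)
      · omega
      · exact hX1
      · exact hX2
      · omega
      · exact hIn
      · rw [hod, List.length_cons, List.length_append, List.length_map]
        have k := num (p := p) (z := z) (E := 3 + (oddc (os.map Prod.fst ++ topns n₀) - 1))
          (a := fill.sum) (e := ([] : List (ℕ × ℕ)).length) (w := g.width) (o := os.length + 2)
          (c := if top = true ∧ n₀ = 0 then p - z else 0)
          (t := (topns n₀).length) (u := if top then 1 else 0) (by
            rw [List.length_nil]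
            omega) hc
        rw [Nat.add_mul] at k
        have e1 : os.length + (topns n₀).length + 1 + 1 = os.length + 2 + (topns n₀).length := by
          omega
        rw [e1]
        omega
      · rw [List.sum_cons, List.sum_append, topns_sum]
        omega
    exact asm hz.1 hz.2 hs.topz (ex := []) (incl' := [(r, b), (r', b')]) (os := os) (Wex := 0)
      (Lex := 0) (by simpa using PS.nil) (by simp) (by simp) (by simp) [(r, X.val), (r', X'.val)]
      (by simp [hXc, hXc']) (by omega) (by
        simp only [Finset.disjUnion, List.map_cons, List.map_nil, List.sum_cons, List.sum_nil,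
          add_zero, zero_add]
        abel) hst

/-- the first leg is excluded, the second one included -/
theorem caseE (h1 : Star1) (hRE : RE) {r b r' b' : ℕ} {os : List (ℕ × ℕ)}
    (hs : StarSit p s R top n₀ l ((r, b) :: (r', b') :: os) g) (hr' : r' % 2 = 1)
    (hO : oddc (os.map Prod.fst ++ topns n₀) = os.length + g.width + (if top then 1 else 0))
    (hg : g = RF.nil)
    {X X' : Finset ℕ} (hXR : X ⊆ R) (hXR' : X' ⊆ R) (hd : Disjoint X X') (hXc : X.card = 3)
    (hXc' : X'.card = b') (hb : 3 ≤ b) (hb' : b' ≤ 2)
    (hX : 2 * p ≤ X.val.sum + s + 2)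
    (hX1' : p ≤ X'.val.sum + s) (hX2' : X'.val.sum ≤ p + s) :
    StarRes p s R top n₀ l ((r, b) :: (r', b') :: os) g := by
  have hdeg := hs.deg
  have hpos := hs.pos
  have hr1 := (hpos (r, b) List.mem_cons_self).1
  have hr1' := (hpos (r', b') (List.mem_cons_of_mem _ List.mem_cons_self)).1
  simp only at hr1 hr1'
  rw [List.length_cons, List.length_cons] at hdeg
  have hos := oddc_le_sum (os.map Prod.fst ++ topns n₀)
  rw [List.sum_append, topns_sum] at hos
  refine ⟨(r, b) :: (r', b') :: os, os, X.disjUnion X' hd, List.Perm.refl _,
    (List.sublist_cons_self _ _).trans (List.sublist_cons_self _ _), ?_, ?_, ?_, ?_, ?_⟩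
  · intro a ha
    rcases Finset.mem_disjUnion.1 ha with ha | ha
    · exact hXR ha
    · exact hXR' ha
  · rw [Finset.card_disjUnion]
    simp only [List.map_cons, List.sum_cons, List.length_cons]
    omega
  · rw [Finset.card_disjUnion]
    simp only [List.map_cons, List.sum_cons]
    omega
  · intro h
    exact absurd hg h
  · intro z hz V fill hIn hcard hlab hfill hnd
    simp only [app_size, legsF_size, botsF_size, List.map_cons, List.sum_cons, List.length_cons]
      at hcard
    simp only [app_leaves, legsF_leaves, botsF_leaves, List.map_cons, List.sum_cons,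
      Finset.card_val, Finset.card_disjUnion] at hlab
    have hc := cc_ge hz hs.topz
    obtain ⟨B, A, hBA, hB⟩ := split_ms (s := fill) (k := b - 3) (by omega)
    have hBc : Multiset.card (X.val + B) = b := by
      rw [Multiset.card_add, Finset.card_val]
      omega
    have hA : Multiset.card A = l := by
      have := congrArg Multiset.card hBA
      rw [Multiset.card_add] at this
      omega
    obtain ⟨W, w1, w2, w3, w4⟩ := excl_step hRE (p := p) (K := s + 2) (r := r) (V := V)
      (X := X.val + B) hr1 (by rw [Multiset.sum_add]; omega) (by omega)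
    rw [hBc] at w1
    have hcV := card_union_le' (V := V) w4
    have hst : Star p (V ∪ W.toFinset) (A.sum + p * [(r, b)].length + p * g.width +
        (if top = true ∧ n₀ = 0 then p - z else 0))
        ([(r', X'.val)].map (fun e => (e.1 + 1, e.2.sum)) ++
          opn p (os.map Prod.fst ++ topns n₀)) := by
      apply h1 p s z 0 _ _
      · intro n hn
        rcases List.mem_append.1 hn with hn | hn
        · obtain ⟨e, he, rfl⟩ := List.mem_map.1 hn
          exact (hpos e (List.mem_cons_of_mem _ (List.mem_cons_of_mem _ he))).1
        · exact topns_mem hn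
      · exact Nat.even_iff.2 (by show (r' + 1) % 2 = 0; omega)
      · show 1 ≤ r' + 1
        omega
      · exact hX1'
      · exact hX2'
      · omega
      · exact in_mono hIn Finset.subset_union_left
      · rw [List.length_append, List.length_map]
        have k := num (p := p) (z := z) (E := 3 + (oddc (os.map Prod.fst ++ topns n₀) - 1))
          (a := A.sum) (e := [(r, b)].length) (w := g.width) (o := os.length + 1)
          (c := if top = true ∧ n₀ = 0 then p - z else 0)
          (t := (topns n₀).length) (u := if top then 1 else 0) (by
            simp only [List.length_cons, List.length_nil]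
            omega) hc
        rw [Nat.add_mul] at k
        have e1 : os.length + (topns n₀).length + 1 = os.length + 1 + (topns n₀).length := by omega
        rw [e1]
        omega
      · rw [List.sum_append, topns_sum]
        show (V ∪ W.toFinset).card + 1 + ((os.map Prod.fst).sum + n₀) + (r' + 1) + s ≤ p + 1
        omega
    exact asm hz.1 hz.2 hs.topz (ex := [(r, b)]) (incl' := [(r', b')]) (os := os) (Wex := W)
      (Lex := X.val + B)
      (by simpa [legsF_cons] using w1) w2 w3 rfl [(r', X'.val)] (by simp [hXc']) hA (by
        rw [hBA]
        simp only [Finset.disjUnion, List.map_cons, List.map_nil, List.sum_cons, List.sum_nil,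
          add_zero]
        abel) hst

/-- two excluded legs -/
theorem caseF (h0 : Star0) (hRE : RE) {r b r' b' : ℕ} {os : List (ℕ × ℕ)}
    (hs : StarSit p s R top n₀ l ((r, b) :: (r', b') :: os) g)
    (hO : oddc (os.map Prod.fst ++ topns n₀) = os.length + g.width + (if top then 1 else 0))
    (hg : g = RF.nil)
    {X X' : Finset ℕ} (hXR : X ⊆ R) (hXR' : X' ⊆ R) (hd : Disjoint X X') (hXc : X.card = 3)
    (hXc' : X'.card = 3) (hb : 3 ≤ b) (hb' : 3 ≤ b')
    (hX : 2 * p ≤ X.val.sum + s + 4) (hX' : 2 * p ≤ X'.val.sum + s + 2) :
    StarRes p s R top n₀ l ((r, b) :: (r', b') :: os) g := by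
  have hdeg := hs.deg
  have hpos := hs.pos
  have hr1 := (hpos (r, b) List.mem_cons_self).1
  have hr1' := (hpos (r', b') (List.mem_cons_of_mem _ List.mem_cons_self)).1
  simp only at hr1 hr1'
  rw [List.length_cons, List.length_cons] at hdeg
  have hos := oddc_le_sum (os.map Prod.fst ++ topns n₀)
  rw [List.sum_append, topns_sum] at hos
  refine ⟨(r, b) :: (r', b') :: os, os, X.disjUnion X' hd, List.Perm.refl _,
    (List.sublist_cons_self _ _).trans (List.sublist_cons_self _ _), ?_, ?_, ?_, ?_, ?_⟩
  · intro a ha
    rcases Finset.mem_disjUnion.1 ha with ha | ha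
    · exact hXR ha
    · exact hXR' ha
  · rw [Finset.card_disjUnion]
    simp only [List.map_cons, List.sum_cons, List.length_cons]
    omega
  · rw [Finset.card_disjUnion]
    simp only [List.map_cons, List.sum_cons]
    omega
  · intro h
    exact absurd hg h
  · intro z hz V fill hIn hcard hlab hfill hnd
    simp only [app_size, legsF_size, botsF_size, List.map_cons, List.sum_cons, List.length_cons]
      at hcard
    simp only [app_leaves, legsF_leaves, botsF_leaves, List.map_cons, List.sum_cons,
      Finset.card_val, Finset.card_disjUnion] at hlab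
    have hc := cc_ge hz hs.topz
    obtain ⟨B, A1, hBA, hB⟩ := split_ms (s := fill) (k := b - 3) (by omega)
    have hA1 : Multiset.card A1 = l + (b' - 3) := by
      have := congrArg Multiset.card hBA
      rw [Multiset.card_add] at this
      omega
    obtain ⟨B', A, hBA', hB'⟩ := split_ms (s := A1) (k := b' - 3) (by omega)
    have hA : Multiset.card A = l := by
      have := congrArg Multiset.card hBA'
      rw [Multiset.card_add] at this
      omega
    have hBc : Multiset.card (X.val + B) = b := by
      rw [Multiset.card_add, Finset.card_val]
      omega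
    have hBc' : Multiset.card (X'.val + B') = b' := by
      rw [Multiset.card_add, Finset.card_val]
      omega
    obtain ⟨W, w1, w2, w3, w4⟩ := excl_step hRE (p := p) (K := s + 4) (r := r) (V := V)
      (X := X.val + B) hr1 (by rw [Multiset.sum_add]; omega) (by omega)
    rw [hBc] at w1
    have hcV := card_union_le' (V := V) w4
    obtain ⟨W', w1', w2', w3', w4'⟩ := excl_step hRE (p := p) (K := s + 2) (r := r')
      (V := V ∪ W.toFinset)
      (X := X'.val + B') hr1' (by rw [Multiset.sum_add]; omega) (by omega)
    rw [hBc'] at w1'
    have hcV' := card_union_le' (V := V ∪ W.toFinset) w4'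
    have hunion : V ∪ W.toFinset ∪ W'.toFinset = V ∪ (W + W').toFinset := by
      rw [Multiset.toFinset_add, Finset.union_assoc]
    have hst : Star p (V ∪ W.toFinset ∪ W'.toFinset)
        (A.sum + p * [(r, b), (r', b')].length + p * g.width +
        (if top = true ∧ n₀ = 0 then p - z else 0))
        (([] : List (ℕ × Multiset ℕ)).map (fun e => (e.1 + 1, e.2.sum)) ++
          opn p (os.map Prod.fst ++ topns n₀)) := by
      rw [List.map_nil, List.nil_append]
      apply h0 p z _ _
      · intro h
        rw [h, oddc_nil] at hO
        omega
      · intro n hn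
        rcases List.mem_append.1 hn with hn | hn
        · obtain ⟨e, he, rfl⟩ := List.mem_map.1 hn
          exact (hpos e (List.mem_cons_of_mem _ (List.mem_cons_of_mem _ he))).1
        · exact topns_mem hn
      · exact in_mono hIn (Finset.subset_union_left.trans Finset.subset_union_left)
      · rw [List.length_append, List.length_map]
        refine num (u := if top then 1 else 0) ?_ hc
        simp only [List.length_cons, List.length_nil]
        omega
      · rw [List.sum_append, topns_sum]
        omega
    have hnd2 : (W + W').Nodup := by
      rw [Multiset.nodup_add]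
      refine ⟨w2, w2', ?_⟩
      rw [Multiset.disjoint_left]
      intro u hu hu'
      apply (w3' u hu').2
      rw [Finset.mem_union, Multiset.mem_toFinset]
      exact Or.inr hu
    have hV2 : ∀ u ∈ W + W', p < u ∧ u ∉ V := by
      intro u hu
      rcases Multiset.mem_add.1 hu with hu | hu
      · exact w3 u hu
      · exact ⟨(w3' u hu).1, fun h => (w3' u hu).2 (Finset.mem_union_left _ h)⟩
    have hex : PS p (legsF [(r, b), (r', b')]) (p * [(r, b), (r', b')].length) (W + W')
        (X.val + B + (X'.val + B')) RF.nil := by
      have h5 := w1.app w1'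
      have e1 : p * [(r, b), (r', b')].length = p + p := by
        simp only [List.length_cons, List.length_nil]
        ring
      rw [e1]
      simpa [legsF_cons] using h5
    exact asm hz.1 hz.2 hs.topz (ex := [(r, b), (r', b')]) (incl' := []) (os := os)
      (Wex := W + W') (Lex := X.val + B + (X'.val + B'))
      hex hnd2 hV2 hunion [] rfl hA (by
        rw [hBA, hBA']
        simp only [Finset.disjUnion, List.map_nil, List.sum_nil, add_zero]
        abel) hst

theorem tStar (h0 : Star0) (h1 : Star1) (h2 : Star2) (hRE : RE) : TStar := by
  intro p s R top n₀ l ls g hL hR hs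
  have hdeg := hs.deg
  have hcardR := hs.leaves
  have hle : ∀ a ∈ R, 1 ≤ a ∧ a ≤ p := fun a ha => Finset.mem_Icc.1 (hR ha)
  have hol := oddc_le (ls.map Prod.fst ++ topns n₀)
  rw [List.length_append, List.length_map] at hol
  have htl := topns_len n₀
  have htop : (topns n₀).length ≤ (if top then 1 else 0) := by
    cases top
    · rw [hs.topz rfl]
      simp [topns]
    · exact htl
  have hsum : ∀ X : Finset ℕ, X.val.sum = X.sum id := fun X => Finset.sum_val X
  by_cases hO0 : oddc (ls.map Prod.fst ++ topns n₀) + 2 ≤
      ls.length + g.width + (if top then 1 else 0)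
  · exact case0 h0 hs hO0
  · by_cases hO1 : oddc (ls.map Prod.fst ++ topns n₀) + 1 =
        ls.length + g.width + (if top then 1 else 0)
    · -- an odd leg
      have hod : 1 ≤ oddc (ls.map Prod.fst) := by
        rw [oddc_append] at hO1
        have := oddc_le (topns n₀)
        omega
      obtain ⟨n, hn, hodd⟩ := oddc_ex hod
      obtain ⟨e, he, rfl⟩ := List.mem_map.1 hn
      obtain ⟨r, b⟩ := e
      have hperm := (List.perm_cons_erase he).symm
      apply starRes_perm hperm
      have hs' := starSit_perm hperm.symm hs
      generalize ls.erase (r, b) = os at hperm hs'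
      have e1 : ls.length = os.length + 1 := by
        rw [← hperm.length_eq, List.length_cons]
      have e2 : oddc (ls.map Prod.fst ++ topns n₀) =
          oddc (os.map Prod.fst ++ topns n₀) + 1 := by
        rw [← oddc_perm ((hperm.map Prod.fst).append_right (topns n₀))]
        exact oddc_cons_odd hodd _
      have hb := (hs'.pos (r, b) List.mem_cons_self).2
      have hlv := hs'.leaves
      simp only [List.map_cons, List.sum_cons] at hb hlv
      have hodd' : r % 2 = 1 := hodd
      rcases Nat.lt_or_ge b 3 with hb3 | hb3
      · obtain rfl | rfl : b = 1 ∨ b = 2 := by omega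
        · obtain ⟨M, hM, hM2⟩ := hL.T (by omega)
          have hM3 := hle M hM
          exact caseA h1 hs' hodd' (by omega) (X := {M}) (Finset.singleton_subset_iff.2 hM)
            (Finset.card_singleton M) (by omega) (by simpa using hM2) (by simp; omega)
        · obtain ⟨X, hX, hX2, hX3⟩ := hL.F (by omega)
          exact caseA h1 hs' hodd' (by omega) hX hX2 (by omega) (by rw [hsum, hX3]; omega)
            (by rw [hsum, hX3]; omega)
      · obtain ⟨X, hX, hX2, hX3⟩ := hL.O (by omega)
        exact caseB h0 hRE hs' (by omega) hX hX2 hb3 (by rw [hsum]; exact hX3)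
    · -- all edges are odd runs
      have hO2 : oddc (ls.map Prod.fst ++ topns n₀) =
          ls.length + g.width + (if top then 1 else 0) := by omega
      have hgw : g.width = 0 := by omega
      have hg : g = RF.nil := by
        cases g with
        | nil => rfl
        | cons a b c => simp [RF.width] at hgw
      have hall : ∀ n ∈ ls.map Prod.fst ++ topns n₀, n % 2 = 1 := by
        apply oddc_all
        rw [List.length_append, List.length_map]
        omega
      have hl2 : 2 ≤ ls.length := by
        have : (if top then 1 else 0) ≤ 1 := by split_ifs <;> omega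
        omega
      obtain ⟨⟨r, b⟩, ⟨r', b'⟩, os, rfl⟩ : ∃ e e' os, ls = e :: e' :: os := by
        match ls, hl2 with
        | e :: e' :: os, _ => exact ⟨e, e', os, rfl⟩
      have hr : r % 2 = 1 := hall r (by simp)
      have hr' : r' % 2 = 1 := hall r' (by simp)
      have hO3 : oddc (os.map Prod.fst ++ topns n₀) =
          os.length + g.width + (if top then 1 else 0) := by
        rw [List.map_cons, List.map_cons, List.cons_append, List.cons_append,
          oddc_cons_odd hr, oddc_cons_odd hr', List.length_cons, List.length_cons] at hO2
        omega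
      have hb := (hs.pos (r, b) (by simp)).2
      have hb' := (hs.pos (r', b') (by simp)).2
      simp only [List.map_cons, List.sum_cons] at hb hb' hcardR
      have hsize := hs.size
      simp only [List.map_cons, List.sum_cons, List.length_cons] at hsize hdeg
      have hos := oddc_le_sum (os.map Prod.fst ++ topns n₀)
      rw [List.sum_append, topns_sum] at hos
      have hsw := List.Perm.swap (r, b) (r', b') os
      -- reduction to `b ≤ b'` classes
      have key : ∀ {r b r' b' : ℕ}, StarSit p s R top n₀ l ((r, b) :: (r', b') :: os) g →
          r % 2 = 1 → r' % 2 = 1 → 1 ≤ b → 1 ≤ b' → b + b' ≤ R.card → b' ≤ b →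
          StarRes p s R top n₀ l ((r, b) :: (r', b') :: os) g := by
        intro r b r' b' hs hr hr' hb hb' hRc hbb
        rcases Nat.lt_or_ge b 3 with hb3 | hb3
        · obtain rfl | rfl : b = 1 ∨ b = 2 := by omega
          · -- TT
            obtain rfl : b' = 1 := by omega
            obtain ⟨M, hM, M', hM', hne, k1, k2⟩ := hL.TT (by omega)
            have k3 := hle M hM
            have k4 := hle M' hM'
            exact caseC h2 hs hr hr' hO3 (X := {M}) (X' := {M'})
              (Finset.singleton_subset_iff.2 hM) (Finset.singleton_subset_iff.2 hM')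
              (Finset.disjoint_singleton.2 hne) (Finset.card_singleton _)
              (Finset.card_singleton _) (by omega) (by omega) (by simpa using k1)
              (by simpa using k3.2) (by simpa using k2) (by simpa using k4.2)
          · obtain rfl | rfl : b' = 1 ∨ b' = 2 := by omega
            · -- FT
              obtain ⟨X, hX, hX2, hX3, M, hM, hMX, hM2⟩ := hL.FT (by omega)
              have k3 := hle M hM
              apply starRes_perm (List.Perm.swap _ _ _)
              exact caseD h1 (starSit_perm (List.Perm.swap _ _ _) hs) hr' hr hO3 (X := {M})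
                (X' := X) (Finset.singleton_subset_iff.2 hM) hX
                (Finset.disjoint_singleton_left.2 hMX) (Finset.card_singleton _) hX2 (by omega)
                (by omega) (by simpa using hM2) (by simp; omega) (by rw [hsum]; exact hX3)
            · -- FF
              obtain ⟨X, hX, X', hX', hd, k1, k2, k3, k4, k5⟩ := hL.FF (by omega) (by omega)
              exact caseD h1 hs hr hr' hO3 hX' hX hd.symm k3 k1 (by omega) (by omega)
                (by rw [hsum]; exact k4) (by rw [hsum]; exact k5) (by rw [hsum]; exact k2)
        · rcases Nat.lt_or_ge b' 3 with hb3' | hb3'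
          · obtain rfl | rfl : b' = 1 ∨ b' = 2 := by omega
            · -- TO
              obtain ⟨M, hM, hM2, X, hX, hMX, hX2, hX3⟩ := hL.TO (by omega)
              have k3 := hle M hM
              exact caseE h1 hRE hs hr' hO3 hg hX (Finset.singleton_subset_iff.2 hM)
                (Finset.disjoint_singleton_right.2 hMX) hX2 (Finset.card_singleton _) hb3
                (by omega) (by rw [hsum]; exact hX3) (by simpa using hM2) (by simp; omega)
            · -- FO
              obtain ⟨X, hX, X', hX', hd, k1, k2, k3, k4⟩ := hL.FO (by omega)
              exact caseE h1 hRE hs hr' hO3 hg hX' hX hd.symm k3 k1 hb3 (by omega)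
                (by rw [hsum]; exact k4) (by rw [hsum, k2]; omega) (by rw [hsum, k2]; omega)
          · -- OO
            obtain ⟨X, hX, X', hX', hd, k1, k2, k3, k4⟩ := hL.OO (by omega)
            exact caseF h0 hRE hs hO3 hg hX' hX hd.symm k3 k1 hb3 hb3'
              (by rw [hsum]; exact k4) (by rw [hsum]; exact k2)
      rcases le_total b' b with hbb | hbb
      · exact key hs hr hr' hb hb' (by omega) hbb
      · apply starRes_perm (List.Perm.swap _ _ _)
        exact key (starSit_perm (List.Perm.swap _ _ _) hs) hr' hr hb' hb (by omega) hbb

end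

end Irr17
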